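import Pool.Agent.H285Z.SC.Main

/-! A sublinear order function all of whose shift-complex classes are deep. -/

set_option autoImplicit false

namespace Pool.Agent.Results.MP_c57dc8_lc.ASublinearDeep

open Pool.Agent.H285Z.SC Filter Topology

/-- There is an order function `f` with `f(n)/n → 0` such that, for every universal prefix-free
machine `U`, every left-c.e. continuous semimeasure `M` (in particular a universal one) and
every `c`, the class `SC(f, c)` is deep. -/
theorem result : ∃ f : ℕ → ℕ, IsOrder f ∧ Tendsto (fun n : ℕ => (f n : ℝ) / n) atTop (𝓝 0) ∧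
    ∀ U : List Bool →. List Bool, IsUniversalMachine U →
      ∀ M : List Bool → ℝ, IsSemimeasure M → LeftCE M → ∀ c : ℕ, Deep M (ShiftComplex U f c) :=
  ⟨ff, ff_order, ff_sublinear, deep⟩

end Pool.Agent.Results.MP_c57dc8_lc.ASublinearDeep
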